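import Mathlib
import Pool.Agent.Q147.QOne

namespace Pool.Agent.Results.MP_aa6101_gt.NonLusin

open Set Filter Topology Pool.Agent.Q147.QFun

/-- There is (in ZFC) a Hausdorff space `X` with `Q_p(X,ℝ)` Fréchet-Urysohn which contains an
uncountable nowhere dense set; so `X` is neither countable nor a Lusin space. -/
theorem result : ∃ (X : Type) (_ : TopologicalSpace X), T2Space X ∧
    FU (Qp X) ∧ ¬ Countable X ∧ ∃ N : Set X, IsNowhereDense N ∧ ¬ N.Countable := by
  refine ⟨Pool.Agent.Q147.QOne.X, inferInstance, inferInstance, Pool.Agent.Q147.QOne.fu, ?_, _,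
    Pool.Agent.Q147.QOne.nowhereDense, Pool.Agent.Q147.QOne.not_countable⟩
  intro h
  exact Pool.Agent.Q147.QOne.not_countable (Set.to_countable _)

end Pool.Agent.Results.MP_aa6101_gt.NonLusin
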